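import Mathlib
import Pool.Agent.R500.MH.Pair

set_option autoImplicit false

/-!
# The Lenstra-Pomerance-Wagstaff law for the pairs `(a, 1)` and `(a, -1)`: amplitudes for which a
positive proportion of all primes are exponents

For an integer `a ≥ 2`, `b = 1` or `b = -1`, real `β > 0` and a prime `p` let `W a b β p` be the
`p`-rough part (the product, with multiplicity, of the prime factors larger than `p`) of the largest
integer below `β a ^ p` (if `b = 1`), or of the integer nearest to `β a ^ p` (if `b = -1`).  At the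
amplitude `β = 1 / (a - b)` this is the number `(a ^ p - b ^ p) / (a - b)` of the conjecture, for
every odd prime `p` which does not divide `a - b`.
Let `N a b β n` be the number of primes `p ≤ n` with `W a b β p` prime.  We prove that for every such
pair, for `0 < s < t < 1` and a suitable `c > 0`, in every interval the set of the `β` with
`N a b β n ≥ c π(n)` for all large `n` and `limsup N a b β n / π(n) ≥ 1 - t` has Hausdorff dimension
at least `s`; in particular the set of the `β` for which a positive proportion of all primes is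
counted, at every large scale, has Hausdorff dimension one in every interval.
-/

namespace Pool.Agent.Results.MP_de9007_nt.DensityDimension

open Filter Topology Set

/-- The product, with multiplicity, of the prime factors of `m` that are larger than `p`. -/
def roughPart (p m : ℕ) : ℕ := (m.primeFactorsList.filter (fun r => p < r)).prod

/-- The largest integer below `y` if `b = 1`, the integer nearest to `y` otherwise. -/
noncomputable def near (b : ℤ) (y : ℝ) : ℕ := if b = 1 then ⌈y⌉₊ - 1 else ⌊y + 1 / 2⌋₊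

/-- The `p`-rough part of the largest integer below `β a ^ p` (if `b = 1`) or of the integer nearest
to `β a ^ p` (if `b = -1`). -/
noncomputable def W (a : ℕ) (b : ℤ) (β : ℝ) (p : ℕ) : ℕ := roughPart p (near b (β * (a : ℝ) ^ p))

/-- The number of primes `p ≤ n` for which `W a b β p` is prime. -/
noncomputable def N (a : ℕ) (b : ℤ) (β : ℝ) (n : ℕ) : ℕ :=
  ((Finset.range (n + 1)).filter (fun p => p.Prime ∧ (W a b β p).Prime)).card

lemma N_eq (a : ℕ) (b : ℤ) (β : ℝ) (n : ℕ) :
    N a b β n = Pool.Agent.R500.MH.M (Pool.Agent.R500.MH.near b) a β n := rfl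

/-- **A positive proportion of all primes: the Hausdorff dimension.** -/
theorem result :
    (∀ (a : ℕ) (b : ℤ), 2 ≤ a → (b = 1 ∨ b = -1) → ∀ p : ℕ, p.Prime → p ≠ 2 →
      ¬ (p : ℤ) ∣ (a : ℤ) - b →
      (W a b (1 / ((a : ℝ) - b)) p : ℤ) * ((a : ℤ) - b) = (a : ℤ) ^ p - b ^ p) ∧
    (∀ (a : ℕ) (b : ℤ), 2 ≤ a → (b = 1 ∨ b = -1) → ∀ s t : ℝ, 0 < s → s < t → t < 1 →
      ∃ c : ℝ, 0 < c ∧ ∀ u v : ℝ, 0 ≤ u → u < v →
      ENNReal.ofReal s ≤ dimH {β : ℝ | β ∈ Set.Ioo u v ∧
        (∀ᶠ n : ℕ in atTop, c * Nat.primeCounting n ≤ N a b β n) ∧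
        (∀ ε : ℝ, 0 < ε → ∃ᶠ n : ℕ in atTop, (1 - t - ε) * Nat.primeCounting n < N a b β n)}) ∧
    (∀ (a : ℕ) (b : ℤ), 2 ≤ a → (b = 1 ∨ b = -1) → ∀ t : ℝ, 0 < t → t ≤ 1 →
      ∀ u v : ℝ, 0 ≤ u → u < v →
      ENNReal.ofReal t ≤ dimH {β : ℝ | β ∈ Set.Ioo u v ∧
        (∃ c : ℝ, 0 < c ∧ ∀ᶠ n : ℕ in atTop, c * Nat.primeCounting n ≤ N a b β n) ∧
        (∀ ε : ℝ, 0 < ε → ∃ᶠ n : ℕ in atTop, (1 - t - ε) * Nat.primeCounting n < N a b β n)}) := by
  refine ⟨fun a b ha hb p hp hp2 hpd => Pool.Agent.R500.MH.near_special ha hb hp hp2 hpd,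
    fun a b ha _ s t hs hst ht => ?_, fun a b ha _ t _ ht1 u v hu huv => ?_⟩
  · have h := Pool.Agent.R500.MH.dim_density (Pool.Agent.R500.MH.rnd_pair b) ha hs hst ht
    simp only [← N_eq] at h
    exact h
  · have h := Pool.Agent.R500.MH.dim_all (Pool.Agent.R500.MH.rnd_pair b) ha ht1 hu huv
    simp only [← N_eq] at h
    exact h

end Pool.Agent.Results.MP_de9007_nt.DensityDimension
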