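import Mathlib
import Pool.Agent.R500.MH.Few
import Pool.Agent.R500.MH.Pair

set_option autoImplicit false

/-!
# The Lenstra-Pomerance-Wagstaff law for the pairs `(a, 1)` and `(a, -1)`: amplitudes with finitely
many exponents

For an integer `a ≥ 2`, `b = 1` or `b = -1`, real `β > 0` and a prime `p` let `W a b β p` be the
`p`-rough part (the product, with multiplicity, of the prime factors larger than `p`) of the largest
integer below `β a ^ p` (if `b = 1`), or of the integer nearest to `β a ^ p` (if `b = -1`).  At the
amplitude `β = 1 / (a - b)` this is the number `(a ^ p - b ^ p) / (a - b)` of the conjecture, for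
every odd prime `p` which does not divide `a - b`.
We prove that for every such pair every interval contains uncountably many `β` for which `W a b β p`
is prime for only finitely many primes `p`.  The proof uses large gaps between primes.
-/

namespace Pool.Agent.Results.MP_de9007_nt.FinitelyManyExponents

open Filter Topology Set

/-- The product, with multiplicity, of the prime factors of `m` that are larger than `p`. -/
def roughPart (p m : ℕ) : ℕ := (m.primeFactorsList.filter (fun r => p < r)).prod

/-- The largest integer below `y` if `b = 1`, the integer nearest to `y` otherwise. -/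
noncomputable def near (b : ℤ) (y : ℝ) : ℕ := if b = 1 then ⌈y⌉₊ - 1 else ⌊y + 1 / 2⌋₊

/-- The `p`-rough part of the largest integer below `β a ^ p` (if `b = 1`) or of the integer nearest
to `β a ^ p` (if `b = -1`). -/
noncomputable def W (a : ℕ) (b : ℤ) (β : ℝ) (p : ℕ) : ℕ := roughPart p (near b (β * (a : ℝ) ^ p))

lemma W_eq (a : ℕ) (b : ℤ) (β : ℝ) (p : ℕ) :
    W a b β p = Pool.Agent.R500.MH.W (Pool.Agent.R500.MH.near b) a β p := rfl

/-- **Every interval contains uncountably many amplitudes with finitely many exponents.** -/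
theorem result :
    (∀ (a : ℕ) (b : ℤ), 2 ≤ a → (b = 1 ∨ b = -1) → ∀ p : ℕ, p.Prime → p ≠ 2 →
      ¬ (p : ℤ) ∣ (a : ℤ) - b →
      (W a b (1 / ((a : ℝ) - b)) p : ℤ) * ((a : ℤ) - b) = (a : ℤ) ^ p - b ^ p) ∧
    (∀ (a : ℕ) (b : ℤ), 2 ≤ a → (b = 1 ∨ b = -1) → ∀ u v : ℝ, 0 ≤ u → u < v →
      ¬ {β : ℝ | β ∈ Set.Ioo u v ∧ {p : ℕ | p.Prime ∧ (W a b β p).Prime}.Finite}.Countable) := by
  refine ⟨fun a b ha hb p hp hp2 hpd => Pool.Agent.R500.MH.near_special ha hb hp hp2 hpd,
    fun a b ha _ u v hu huv => ?_⟩
  have h := Pool.Agent.R500.MH.few (Pool.Agent.R500.MH.rnd_pair b) ha hu huv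
  simp only [← W_eq] at h
  exact h

end Pool.Agent.Results.MP_de9007_nt.FinitelyManyExponents
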