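import Mathlib
import Pool.Agent.R500.MH.Pair

set_option autoImplicit false

/-!
# The Lenstra-Pomerance-Wagstaff law for the pairs `(a, 1)` and `(a, -1)`: the generic amplitude

For an integer `a ≥ 2`, `b = 1` or `b = -1`, real `β > 0` and a prime `p` let `W a b β p` be the
`p`-rough part (the product, with multiplicity, of the prime factors larger than `p`) of the largest
integer below `β a ^ p` (if `b = 1`), or of the integer nearest to `β a ^ p` (if `b = -1`).  At the
amplitude `β = 1 / (a - b)` this is the number `(a ^ p - b ^ p) / (a - b)` of the conjecture, for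
every odd prime `p` which does not divide `a - b`.
Let `N a b β n` be the number of primes `p ≤ n` with `W a b β p` prime.  We prove that for comeagre
many `β`, simultaneously for all pairs `(a, 1)` and `(a, -1)`, the counting function is smaller than
`f n` for infinitely many `n` (`f` a function tending to infinity); for infinitely many `n` all the
primes in `(2 log n, n]` are counted; and every `c ∈ [0, ∞)` is a limit point of
`N a b β n / log n`, in contrast to the law `e ^ γ / log a` which holds for almost every amplitude.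
-/

namespace Pool.Agent.Results.MP_de9007_nt.GenericAmplitude

open Filter Topology Set

/-- The product, with multiplicity, of the prime factors of `m` that are larger than `p`. -/
def roughPart (p m : ℕ) : ℕ := (m.primeFactorsList.filter (fun r => p < r)).prod

/-- The largest integer below `y` if `b = 1`, the integer nearest to `y` otherwise. -/
noncomputable def near (b : ℤ) (y : ℝ) : ℕ := if b = 1 then ⌈y⌉₊ - 1 else ⌊y + 1 / 2⌋₊

/-- The `p`-rough part of the largest integer below `β a ^ p` (if `b = 1`) or of the integer nearest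
to `β a ^ p` (if `b = -1`). -/
noncomputable def W (a : ℕ) (b : ℤ) (β : ℝ) (p : ℕ) : ℕ := roughPart p (near b (β * (a : ℝ) ^ p))

/-- The number of primes `p ≤ n` for which `W a b β p` is prime. -/
noncomputable def N (a : ℕ) (b : ℤ) (β : ℝ) (n : ℕ) : ℕ :=
  ((Finset.range (n + 1)).filter (fun p => p.Prime ∧ (W a b β p).Prime)).card

lemma W_eq (a : ℕ) (b : ℤ) (β : ℝ) (p : ℕ) :
    W a b β p = Pool.Agent.R500.MH.W (Pool.Agent.R500.MH.near b) a β p := rfl

lemma N_eq (a : ℕ) (b : ℤ) (β : ℝ) (n : ℕ) :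
    N a b β n = Pool.Agent.R500.MH.M (Pool.Agent.R500.MH.near b) a β n := rfl

/-- **The law fails for the topologically generic amplitude, simultaneously for all pairs.** -/
theorem result :
    (∀ (a : ℕ) (b : ℤ), 2 ≤ a → (b = 1 ∨ b = -1) → ∀ p : ℕ, p.Prime → p ≠ 2 →
      ¬ (p : ℤ) ∣ (a : ℤ) - b →
      (W a b (1 / ((a : ℝ) - b)) p : ℤ) * ((a : ℤ) - b) = (a : ℤ) ^ p - b ^ p) ∧
    (∀ f : ℕ → ℝ, Tendsto f atTop atTop → ∀ᶠ β : ℝ in residual ℝ, 0 < β →
      ∀ (a : ℕ) (b : ℤ), 2 ≤ a → (b = 1 ∨ b = -1) → ∃ᶠ n : ℕ in atTop, (N a b β n : ℝ) < f n) ∧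
    (∀ᶠ β : ℝ in residual ℝ, 0 < β → ∀ (a : ℕ) (b : ℤ), 2 ≤ a → (b = 1 ∨ b = -1) →
      (∃ᶠ n : ℕ in atTop, ∀ p : ℕ, p.Prime → 2 * Real.log n < p → p ≤ n → (W a b β p).Prime) ∧
      (∀ ε : ℝ, 0 < ε → ∃ᶠ n : ℕ in atTop, (1 - ε) * Nat.primeCounting n < N a b β n) ∧
      (∀ c : ℝ, 0 ≤ c → MapClusterPt c atTop (fun n : ℕ => (N a b β n : ℝ) / Real.log n))) := by
  refine ⟨fun a b ha hb p hp hp2 hpd => Pool.Agent.R500.MH.near_special ha hb hp hp2 hpd,
    fun f hf => ?_, ?_⟩
  · have h : ∀ᶠ β : ℝ in residual ℝ, ∀ (a : ℕ) (b : ℤ), 2 ≤ a → 0 < β →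
        ∃ᶠ n : ℕ in atTop, (N a b β n : ℝ) < f n := by
      rw [eventually_countable_forall]
      intro a
      rw [eventually_countable_forall]
      intro b
      by_cases ha : 2 ≤ a
      · have h := (Pool.Agent.R500.MH.generic_law (Pool.Agent.R500.MH.rnd_pair b) ha).1 f hf
        simp only [← N_eq] at h
        filter_upwards [h] with β hβ _ h0 using hβ h0
      · exact Eventually.of_forall fun β h1 => absurd h1 ha
    filter_upwards [h] with β hβ h0 a b ha _ using hβ a b ha h0
  · have h : ∀ᶠ β : ℝ in residual ℝ, ∀ (a : ℕ) (b : ℤ), 2 ≤ a → 0 < β →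
      (∃ᶠ n : ℕ in atTop, ∀ p : ℕ, p.Prime → 2 * Real.log n < p → p ≤ n → (W a b β p).Prime) ∧
      (∀ ε : ℝ, 0 < ε → ∃ᶠ n : ℕ in atTop, (1 - ε) * Nat.primeCounting n < N a b β n) ∧
      (∀ c : ℝ, 0 ≤ c → MapClusterPt c atTop (fun n : ℕ => (N a b β n : ℝ) / Real.log n)) := by
      rw [eventually_countable_forall]
      intro a
      rw [eventually_countable_forall]
      intro b
      by_cases ha : 2 ≤ a
      · have h := (Pool.Agent.R500.MH.generic_law (Pool.Agent.R500.MH.rnd_pair b) ha).2
        simp only [← N_eq, ← W_eq] at h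
        filter_upwards [h] with β hβ _ h0 using hβ h0
      · exact Eventually.of_forall fun β h1 => absurd h1 ha
    filter_upwards [h] with β hβ h0 a b ha _ using hβ a b ha h0

end Pool.Agent.Results.MP_de9007_nt.GenericAmplitude
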