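import Mathlib
import Pool.Agent.TH888.R.Base
import Pool.Agent.H447R2.ML.Spec

set_option autoImplicit false

/-!
# The Lenstra-Pomerance-Wagstaff law for sets of exponents, all pairs `(a, b)` at once

For integers `a > 1`, `-a < b < a`, a real `β > 0` and a prime `p` let `W a b β p` be the `p`-rough
part (the product, with multiplicity, of the prime factors larger than `p`) of
`⌊β a ^ p - b ^ p / (a - b)⌋`.  At the amplitude `β = 1 / (a - b)` this is `(a ^ p - b ^ p) / (a - b)`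
itself, for coprime `a`, `b` and `p` prime to `a - b`.  For a set `S` let `M S a b β n` be the number
of primes `p ≤ n` in `S` with `W a b β p` prime, and let `V S n` be the sum of `log p / p` over the
primes `p ≤ n` in `S`.

We prove for almost every `β > 0`, simultaneously for all pairs `(a, b)`, that the number of primes
`p ≤ n` with `W a b β p` prime is `(e ^ γ / log a) log n + O((log n) ^ (1/2) (log log n) ^ (5/2))`;
and for every sequence `S 0, S 1, …` of sets and almost every `β > 0`, simultaneously for all pairs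
and all `i`, that `W a b β p` is prime for infinitely many primes `p` in `S i` if and only if
`V (S i)` is unbounded, and that in this case
`M (S i) a b β n = (e ^ γ / log a) V + O((V L) ^ (1/2) (log (V L)) ^ 2)`, `V = V (S i) n`,
`L = log log n`.
-/

namespace Pool.Agent.Results.MP_de9007_nt.SetsOfExponents

open Filter Topology MeasureTheory Asymptotics

/-- The product, with multiplicity, of the prime factors of `m` that are larger than `p`. -/
def roughPart (p m : ℕ) : ℕ := (m.primeFactorsList.filter (fun r => p < r)).prod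

/-- The `p`-rough part of `⌊β a ^ p - b ^ p / (a - b)⌋`. -/
noncomputable def W (a b : ℤ) (β : ℝ) (p : ℕ) : ℕ :=
  roughPart p ⌊β * (a : ℝ) ^ p - (b : ℝ) ^ p / ((a : ℝ) - b)⌋₊

open Classical in
/-- The number of primes `p ≤ n` in the set `S` for which `W a b β p` is prime. -/
noncomputable def M (S : Set ℕ) (a b : ℤ) (β : ℝ) (n : ℕ) : ℕ :=
  ((Finset.range (n + 1)).filter (fun p => p.Prime ∧ p ∈ S ∧ (W a b β p).Prime)).card

open Classical in
/-- The number of primes `p ≤ n` in the set `S` for which `(a ^ p - b ^ p) / (a - b)` is prime. -/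
noncomputable def count (S : Set ℕ) (a b : ℤ) (n : ℕ) : ℕ :=
  ((Finset.range (n + 1)).filter
    (fun p => p.Prime ∧ p ∈ S ∧ Prime ((a ^ p - b ^ p) / (a - b)))).card

open Classical in
/-- The sum of `log p / p` over the primes `p ≤ n` in the set `S`. -/
noncomputable def V (S : Set ℕ) (n : ℕ) : ℝ :=
  ∑ p ∈ (Finset.range (n + 1)).filter (fun p => p.Prime ∧ p ∈ S), Real.log p / p

lemma V_eq (S : Set ℕ) : V S = Pool.Agent.TH888.R.VS S := by
  classical
  funext n
  unfold V Pool.Agent.TH888.R.VS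
  rw [Finset.sum_filter]
  refine Finset.sum_congr rfl fun p _ => ?_
  by_cases h : p.Prime ∧ p ∈ S
  · rw [if_pos h, if_pos ⟨h.2, h.1⟩]
    rfl
  · rw [if_neg h, if_neg fun h1 => h ⟨h1.2, h1.1⟩]

lemma M_eq (S : Set ℕ) (a b : ℤ) (β : ℝ) (n : ℕ) : M S a b β n =
    Pool.Agent.TH888.R.cS S (fun p => ⌊β * (a : ℝ) ^ p - (b : ℝ) ^ p / ((a : ℝ) - b)⌋₊) n := by
  classical
  unfold M Pool.Agent.TH888.R.cS
  rfl

/-- The special amplitude. -/
lemma special {a b : ℤ} (hab : IsCoprime a b) (h1 : -a < b) (h2 : b < a) {p : ℕ} (hp : p.Prime)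
    (hpd : ¬ (p : ℤ) ∣ a - b) : (W a b (1 / ((a : ℝ) - b)) p : ℤ) * (a - b) = a ^ p - b ^ p := by
  have h := Pool.Agent.H447R2.ML.rough_quot hab h1 h2 hp hpd rfl
  have hgeom : (∑ i ∈ Finset.range p, a ^ i * b ^ (p - 1 - i)) * (a - b) = a ^ p - b ^ p :=
    (Commute.all a b).geom_sum₂_mul p
  rw [← h] at hgeom
  exact hgeom

lemma card_le_of_eventually {s t : ℕ → Prop} [DecidablePred s] [DecidablePred t] (D : ℕ)
    (h : ∀ p, D < p → s p → t p) (n : ℕ) :
    (((Finset.range (n + 1)).filter s).card : ℝ) ≤ (((Finset.range (n + 1)).filter t).card : ℝ) +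
      (D + 1 : ℕ) := by
  have h1 : (Finset.range (n + 1)).filter s ⊆ (Finset.range (n + 1)).filter t ∪ Finset.range (D + 1) := by
    intro p hp
    rw [Finset.mem_filter] at hp
    rw [Finset.mem_union, Finset.mem_filter]
    by_cases hD : D < p
    · exact Or.inl ⟨hp.1, h p hD hp.2⟩
    · exact Or.inr (Finset.mem_range.2 (by omega))
  have h2 := (Finset.card_le_card h1).trans (Finset.card_union_le _ _)
  rw [Finset.card_range] at h2
  exact_mod_cast h2

/-- the two counting functions differ by a bounded amount -/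
lemma count_close {a b : ℤ} (hab : IsCoprime a b) (h1 : -a < b) (h2 : b < a) (S : Set ℕ) :
    ∃ D : ℝ, ∀ n : ℕ, |(M S a b (1 / ((a : ℝ) - b)) n : ℝ) - count S a b n| ≤ D := by
  classical
  have key : ∀ p : ℕ, (a - b).natAbs < p → p.Prime →
      ((W a b (1 / ((a : ℝ) - b)) p).Prime ↔ Prime ((a ^ p - b ^ p) / (a - b))) := by
    intro p hD hp
    have h3 : ¬ (p : ℤ) ∣ a - b := by
      intro hd
      have h4 := Int.natAbs_dvd_natAbs.2 hd
      rw [Int.natAbs_natCast] at h4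
      have h5 := Nat.le_of_dvd (Int.natAbs_pos.2 (by omega)) h4
      omega
    have h4 := special hab h1 h2 hp h3
    rw [← h4, Int.mul_ediv_cancel _ (by omega)]
    exact Nat.prime_iff_prime_int
  refine ⟨(((a - b).natAbs + 1 : ℕ) : ℝ), fun n => ?_⟩
  have e1 : (M S a b (1 / ((a : ℝ) - b)) n : ℝ) ≤ count S a b n + (((a - b).natAbs + 1 : ℕ) : ℝ) :=
    card_le_of_eventually (a - b).natAbs
      (fun p hD hp => ⟨hp.1, hp.2.1, (key p hD hp.1).1 hp.2.2⟩) n
  have e2 : (count S a b n : ℝ) ≤ M S a b (1 / ((a : ℝ) - b)) n + (((a - b).natAbs + 1 : ℕ) : ℝ) :=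
    card_le_of_eventually (a - b).natAbs
      (fun p hD hp => ⟨hp.1, hp.2.1, (key p hD hp.1).2 hp.2.2⟩) n
  rw [abs_le]
  constructor <;> linarith

lemma pt (a b : ℤ) (ha : 1 < a) (h1 : -a < b) (h2 : b < a) (S : Set ℕ) : ∀ᵐ β : ℝ, 0 < β →
    Pool.Agent.TH888.R.Pt (fun p => ⌊β * (a : ℝ) ^ p - (b : ℝ) ^ p / ((a : ℝ) - b)⌋₊)
      (Real.exp Real.eulerMascheroniConstant / Real.log a) S := by
  obtain ⟨A, hA⟩ := Int.eq_ofNat_of_zero_le (show 0 ≤ a by omega)
  have hA2 : 2 ≤ A := by omega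
  have hbr : |(b : ℝ)| < (A : ℝ) := by
    have h3 : |b| < a := abs_lt.2 ⟨h1, h2⟩
    rw [hA] at h3
    exact_mod_cast h3
  have hab : (0 : ℝ) < (A : ℝ) - b := by
    have := le_abs_self (b : ℝ)
    linarith
  have hA1 : (1 : ℝ) < (A : ℝ) := by exact_mod_cast (by omega : 1 < A)
  have hg : ∀ p : ℕ, |(fun p : ℕ => -((b : ℝ) ^ p / ((A : ℝ) - b))) p| ≤
      1 / ((A : ℝ) - b) * |(b : ℝ)| ^ p := by
    intro p
    simp only
    rw [abs_neg, abs_div, abs_pow, abs_of_pos hab]
    exact le_of_eq (by ring)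
  have key := Pool.Agent.TH888.R.pt_floor (α := (A : ℝ)) (κ := |(b : ℝ)|) (C := 1 / ((A : ℝ) - b))
    (g := fun p => -((b : ℝ) ^ p / ((A : ℝ) - b))) hA1 (abs_nonneg _) hbr hg
    (Pool.Agent.TH888.R.near_base (b := A) hA2 (abs_nonneg _) hbr hg) S
  have e : (a : ℝ) = (A : ℝ) := by rw [hA]; simp
  rw [e]
  simp only [sub_eq_add_neg] at key ⊢
  exact key

/-- all pairs at once -/
lemma all_pairs {P : ℝ → ℤ → ℤ → Prop}
    (h : ∀ a b : ℤ, 1 < a → -a < b → b < a → ∀ᵐ β : ℝ, 0 < β → P β a b) :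
    ∀ᵐ β : ℝ, 0 < β → ∀ a b : ℤ, 1 < a → -a < b → b < a → P β a b := by
  have h' : ∀ a b : ℤ, ∀ᵐ β : ℝ, 1 < a → -a < b → b < a → 0 < β → P β a b := by
    intro a b
    by_cases hc : 1 < a ∧ -a < b ∧ b < a
    · filter_upwards [h a b hc.1 hc.2.1 hc.2.2] with β hβ _ _ _
      exact hβ
    · exact Eventually.of_forall fun β h1 h2 h3 => absurd ⟨h1, h2, h3⟩ hc
  filter_upwards [ae_all_iff.2 fun a => ae_all_iff.2 (h' a)] with β hβ h0 a b ha h1 h2
  exact hβ a b ha h1 h2 h0

/-- **The law for sets of exponents, all pairs at once.** -/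
theorem result :
    (∀ a b : ℤ, IsCoprime a b → -a < b → b < a → ∀ p : ℕ, p.Prime → ¬ (p : ℤ) ∣ a - b →
      (W a b (1 / ((a : ℝ) - b)) p : ℤ) * (a - b) = a ^ p - b ^ p) ∧
    (∀ a b : ℤ, IsCoprime a b → -a < b → b < a → ∀ S : Set ℕ,
      ∃ D : ℝ, ∀ n : ℕ, |(M S a b (1 / ((a : ℝ) - b)) n : ℝ) - count S a b n| ≤ D) ∧
    (∀ᵐ β : ℝ, 0 < β → ∀ a b : ℤ, 1 < a → -a < b → b < a →
      (fun n : ℕ => (M Set.univ a b β n : ℝ) -
        Real.exp Real.eulerMascheroniConstant / Real.log a * Real.log n) =O[atTop]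
      (fun n : ℕ => Real.sqrt (Real.log n) * (Real.log (Real.log n)) ^ ((5 : ℝ) / 2))) ∧
    (∀ S : ℕ → Set ℕ, ∀ᵐ β : ℝ, 0 < β → ∀ a b : ℤ, 1 < a → -a < b → b < a → ∀ i : ℕ,
      ({p : ℕ | p.Prime ∧ p ∈ S i ∧ (W a b β p).Prime}.Infinite ↔ Tendsto (V (S i)) atTop atTop) ∧
      (Tendsto (V (S i)) atTop atTop →
        (fun n : ℕ => (M (S i) a b β n : ℝ) -
          Real.exp Real.eulerMascheroniConstant / Real.log a * V (S i) n) =O[atTop]
        (fun n : ℕ => Real.sqrt (V (S i) n * Real.log (Real.log n)) *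
          (Real.log (V (S i) n * Real.log (Real.log n))) ^ 2))) := by
  refine ⟨fun a b hab h1 h2 p hp hpd => special hab h1 h2 hp hpd,
    fun a b hab h1 h2 S => count_close hab h1 h2 S, all_pairs fun a b ha h1 h2 => ?_,
    fun S => all_pairs fun a b ha h1 h2 => ?_⟩
  · filter_upwards [pt a b ha h1 h2 Set.univ] with β hβ h0
    obtain ⟨B, hB, h⟩ := (hβ h0).law Pool.Agent.TH888.R.VS_univ_tendsto
    simp only [M_eq]
    exact Pool.Agent.TH888.R.bigO_all hB h
  · filter_upwards [ae_all_iff.2 fun i => pt a b ha h1 h2 (S i)] with β hβ h0 i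
    simp only [V_eq]
    refine ⟨⟨fun hi => ?_, fun ht => ((hβ i) h0).inf ht⟩, fun ht => ?_⟩
    · by_contra hn
      exact hi (((hβ i) h0).fin hn)
    · obtain ⟨B, hB, h⟩ := ((hβ i) h0).law ht
      simp only [M_eq]
      exact Pool.Agent.TH888.R.bigO_set hB ht h

end Pool.Agent.Results.MP_de9007_nt.SetsOfExponents
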